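import Pool.Agent.H71.CO.Targets

/-!
# Two variables, counting quantifiers and a linear order: module TRU (board cqo_modules)
-/

set_option autoImplicit false

open Set

namespace Pool.Agent.H35.CO

open Pool.Agent.H71.CO
open Pool.Agent.H71.CQ (Formula Holds Iso IsIso)

/-- subsets of `ℕ` with the same number of elements -/
theorem equiv_of_encard {S T : Set ℕ} (h : S.encard = T.encard) : Nonempty (S ≃ T) := by
  have h1 : Cardinal.toENat (Cardinal.mk S) = Cardinal.toENat (Cardinal.mk T) := h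
  have hS : Cardinal.mk S ≤ Cardinal.aleph0 := Cardinal.mk_le_aleph0
  have hT : Cardinal.mk T ≤ Cardinal.aleph0 := Cardinal.mk_le_aleph0
  exact Cardinal.eq.1 (Cardinal.toENat_injOn hS hT h1)

/-- two labellings of `ℕ` with the same numbers of points of every label -/
theorem bij_of_encard {L : Type} (p q : ℕ → L)
    (h : ∀ l, {v | p v = l}.encard = {v | q v = l}.encard) :
    ∃ f : ℕ ≃ ℕ, ∀ w, q (f w) = p w := by
  have h1 : ∀ l, Nonempty ({v | p v = l} ≃ {v | q v = l}) := fun l => equiv_of_encard (h l)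
  have E : ∀ l, {v | p v = l} ≃ {v | q v = l} := fun l => Classical.choice (h1 l)
  refine ⟨(Equiv.sigmaFiberEquiv p).symm.trans ((Equiv.sigmaCongrRight E).trans
    (Equiv.sigmaFiberEquiv q)), fun w => ?_⟩
  exact (E (p w) ⟨w, rfl⟩).2

theorem tru_cnt0 {C : Type} [MeasurableSpace C] (x : ℕ → ℕ → C) (n : ℕ) (θ : Formula C)
    (a b : ℕ) : Tru x (.cnt n 0 θ) a b ↔ (n : ℕ∞) ≤ {c | Tru x θ c b}.encard := by
  have h : ∀ c, Function.update ![a, b] (0 : Fin 2) c = ![c, b] := by
    intro c; funext i; fin_cases i <;> simp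
  unfold Tru
  show (n : ℕ∞) ≤ {c | Holds _ θ (Function.update ![a, b] (0 : Fin 2) c)}.encard ↔ _
  simp only [h]

theorem tru_cnt1 {C : Type} [MeasurableSpace C] (x : ℕ → ℕ → C) (n : ℕ) (θ : Formula C)
    (a b : ℕ) : Tru x (.cnt n 1 θ) a b ↔ (n : ℕ∞) ≤ {c | Tru x θ a c}.encard := by
  have h : ∀ c, Function.update ![a, b] (1 : Fin 2) c = ![a, c] := by
    intro c; funext i; fin_cases i <;> simp
  unfold Tru
  show (n : ℕ∞) ≤ {c | Holds _ θ (Function.update ![a, b] (1 : Fin 2) c)}.encard ↔ _
  simp only [h]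

theorem encard_equiv (f : ℕ ≃ ℕ) (S T : Set ℕ) (h : ∀ w, w ∈ S ↔ f w ∈ T) :
    S.encard = T.encard := by
  have h1 : T = f '' S := by
    ext c
    constructor
    · intro hc
      refine ⟨f.symm c, ?_, f.apply_symm_apply c⟩
      rw [h, f.apply_symm_apply]
      exact hc
    · rintro ⟨w, hw, rfl⟩
      exact (h w).1 hw
  rw [h1]
  exact (f.injective.encard_image S).symm

theorem pf_TRU : T_TRU := by
  intro C _ x L s hs e he x' hx ψ
  induction ψ with
  | label B hB i j =>
    intro u v a b h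
    have hsw := he.sw u v a b h
    have hdu := he.dg u v a b h
    have hdv := he.dg v u b a hsw
    show x' (![u, v] i) (![u, v] j) ∈ B ↔ x (![a, b] i) (![a, b] j) ∈ B
    fin_cases i <;> fin_cases j
    · show x' u u ∈ B ↔ x a a ∈ B
      rw [hx u u a a hdu]
    · show x' u v ∈ B ↔ x a b ∈ B
      rw [hx u v a b h]
    · show x' v u ∈ B ↔ x b a ∈ B
      rw [hx v u b a hsw]
    · show x' v v ∈ B ↔ x b b ∈ B
      rw [hx v v b b hdv]
  | equal i j =>
    intro u v a b h
    have hdu := he.dg u v a b h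
    have key : u = v ↔ a = b := by
      constructor
      · intro e1
        subst e1
        exact hs.eq a a b (hdu.symm.trans h)
      · intro e1
        subst e1
        exact he.eq u v a h
    show ![u, v] i = ![u, v] j ↔ ![a, b] i = ![a, b] j
    fin_cases i <;> fin_cases j
    · exact ⟨fun _ => rfl, fun _ => rfl⟩
    · exact key
    · exact ⟨fun h1 => (key.1 (Eq.symm h1)).symm, fun h1 => (key.2 (Eq.symm h1)).symm⟩
    · exact ⟨fun _ => rfl, fun _ => rfl⟩
  | not φ ih =>
    intro u v a b h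
    exact not_congr (ih u v a b h)
  | conj φ ih =>
    intro u v a b h
    exact forall_congr' fun n => ih n u v a b h
  | cnt n i φ ih =>
    intro u v a b h
    have hsw := he.sw u v a b h
    have hdu := he.dg u v a b h
    have hdv := he.dg v u b a hsw
    fin_cases i
    · show Tru x' (.cnt n 0 φ) u v ↔ Tru x (.cnt n 0 φ) a b
      rw [tru_cnt0, tru_cnt0]
      obtain ⟨f, hf⟩ := bij_of_encard (e v) (s b) (he.cnt v b hdv)
      rw [encard_equiv f {w | Tru x' φ w v} {c | Tru x φ c b}]
      intro w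
      exact ih w v (f w) b (he.sw v w b (f w) (hf w).symm)
    · show Tru x' (.cnt n 1 φ) u v ↔ Tru x (.cnt n 1 φ) a b
      rw [tru_cnt1, tru_cnt1]
      obtain ⟨f, hf⟩ := bij_of_encard (e u) (s a) (he.cnt u a hdu)
      rw [encard_equiv f {w | Tru x' φ u w} {c | Tru x φ a c}]
      intro w
      exact ih u w a (f w) (hf w).symm

end Pool.Agent.H35.CO
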